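import Pool.Agent.H834.AUT.Group

/-!
# Automorphisms of cubic fourfolds and associated K3 surfaces

The theorem is about lattices of cubic type (`CubLat`, `CubLat.IsCubic`, module
`Pool.Agent.Q53.LFY.Defs`): `ℤ^23` with a symmetric unimodular form `H.ip`, a characteristic vector `H.h`
with `h.h = 3` and a complex vector `H.ω`; the Hodge vectors (`H.IsHodge v`) are those which are
orthogonal to `H.ω`; the form is positive on them, `h` is one of them, and there is no Hodge vector with
`(v.h, v.v) = (1, 1)` or `(0, 2)`. `H.disc v = 3 v.v - (v.h)^2` is the discriminant of the group spanned by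
`h` and `v`, `InC H d` means `H.disc v = d` for a Hodge vector `v` for which this group is saturated, and
`H.HasK3` means `InC H d` for some admissible `d` (`d > 6` is not divisible by `4`, `9` or an odd prime
number `p ≡ 2 mod 3`). No theorem about cubic fourfolds is used or assumed.

By known theorems the group `H^4(X, ℤ)` of a smooth cubic fourfold `X`, with the intersection form, the
square of the hyperplane class and a generator of `H^{3,1}`, is such a lattice; `InC H d` means that `X`
is in the Hassett divisor `C_d`, and `H.HasK3` means that `H^2(S, ℤ)_pr` of a polarised K3 surface has a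
primitive isometric embedding of Hodge structures in `H^4(X, ℤ)_pr` (Hassett). The automorphisms of `X`
act faithfully on `H^4(X, ℤ)`, and are the Hodge isometries (`HodgeIsometry H`: the isometries which fix
`h` and multiply the period `ω` by a number `c`; Voisin's Torelli theorem), all of finite order; those with
`c = 1` are the symplectic ones.

**Theorem.** Let `X` be without associated K3 surface. Then (by the criterion of the library) there is a
prime number `p`, `p = 3` or `p ≡ 2 mod 3`, such that for all `d` with `X` in `C_d` we have `2 p ∣ d`,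
respectively `d ≡ 0, 12 mod 18` for `p = 3`. For every such `p`:

1. every automorphism of `X` has `p`-power order or an exceptional power; an automorphism is exceptional
   if it has order three, is not symplectic and fixes only the multiples of `h` in `H^4(X, ℤ)`, such as
   the covering automorphism of a cyclic cubic fourfold `x_5^3 = f(x_0, …, x_4)`;
2. `p = 2` if `X` has a nontrivial symplectic automorphism or contains a plane.

So: a cubic fourfold whose group of automorphisms is not a `p`-group for a single such `p`, has an
associated K3 surface if there is no exceptional automorphism (for example, if the order of the group has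
two different prime divisors); the same if the order of the group is a power of `3` and there is a
symplectic automorphism or a plane. The primes `p = 2` and `p = 3` occur: the very general cubic fourfold
with an Eckardt point, or with the automorphism `diag(1, 1, 1, ζ, ζ, ζ^2)` of order three (where the
lattice of the invariant classes is `⟨3⟩ ⊕ E_6^*(3)`), has no associated K3 surface.

3. In particular, if an automorphism `g` of order `n` is not symplectic and fixes a class which is not a
   multiple of `h`, then `X` has an associated K3 surface if and only if for every prime divisor `p` of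
   `n`, `p = 3` or `p ≡ 2 mod 3`, it is in some `C_d` such that `p` does not obstruct `d`.

Idea of the proof. Let `q(v) = disc v / 2`, and let `p` obstruct. Let `g` be of prime order `n ≠ p`. If `g` is
not symplectic, then the invariant classes are Hodge classes and this lattice is unimodular at
`p`; as all values of `q` are divisible by `p`, all invariant classes are multiples of `h`. If `g` is
symplectic, then the lattice `S` of the classes with `v + g v + … + g^(n-1) v = 0` consists of Hodge classes
and is unimodular at `p`, and the products on `S` are divisible by `p`, so `S = 0`. Finally let `g` be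
symplectic of odd order `n = p`. Then all products on `S` are divisible by `p`, hence `1 - g` is divisible
by `p` on `S`, so `g` is congruent to `1` modulo `p` on `S`, which is impossible for an element of finite
order. For `p = 3` the same is done with one third of the form.
-/

set_option autoImplicit false

namespace Pool.Agent.Results.MP_ffd2c1_ag.AutomorphismsAndK3

open Pool.Agent.Q53.LFY Pool.Agent.Q53.LFA

/-- The product with the period. -/
noncomputable def period (H : CubLat) (v : Fin 23 → ℤ) : ℂ :=
  ∑ i, ∑ j, (v i : ℂ) * H.B i j * H.ω j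

/-- A Hodge isometry: an isometry of the lattice which fixes `h` and multiplies the period by `c`. -/
structure HodgeIsometry (H : CubLat) where
  /-- the map -/
  f : (Fin 23 → ℤ) → Fin 23 → ℤ
  /-- the action on the period -/
  c : ℂ
  add : ∀ v w, f (v + w) = f v + f w
  isometry : ∀ v w, H.ip (f v) (f w) = H.ip v w
  fixes_h : f H.h = H.h
  period : ∀ v, period H (f v) = c * period H v

/-- The `n`-th power is the identity. -/
def HodgeIsometry.PowTrivial {H : CubLat} (g : HodgeIsometry H) (n : ℕ) : Prop :=
  ∀ v, g.f^[n] v = v

/-- It has finite order. -/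
def HodgeIsometry.FiniteOrder {H : CubLat} (g : HodgeIsometry H) : Prop :=
  ∃ n : ℕ, 0 < n ∧ g.PowTrivial n

/-- The `m`-th power fixes a vector which is not a multiple of `h`. -/
def HodgeIsometry.FixesMore {H : CubLat} (g : HodgeIsometry H) (m : ℕ) : Prop :=
  ∃ v, g.f^[m] v = v ∧ ∀ k : ℤ, v ≠ k • H.h

/-- The `m`-th power is exceptional: it has order three, acts nontrivially on the period, and fixes
only the multiples of `h`. -/
def HodgeIsometry.ExceptionalPower {H : CubLat} (g : HodgeIsometry H) (m : ℕ) : Prop :=
  g.PowTrivial (3 * m) ∧ g.c ^ m ≠ 1 ∧ ¬ g.FixesMore m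

/-- The prime numbers which can obstruct: `3` and the prime numbers `≡ 2 mod 3`. -/
def BadPrime (p : ℕ) : Prop := p.Prime ∧ (p = 3 ∨ p % 3 = 2)

/-- The bad prime number `p` obstructs `d`. -/
def Obstructs (p : ℕ) (d : ℤ) : Prop :=
  (p = 3 ∧ (d % 18 = 0 ∨ d % 18 = 12)) ∨ (p ≠ 3 ∧ 2 * (p : ℤ) ∣ d)

/-- The prime number `p` obstructs all `d` with `InC H d`. -/
def ObstructsAll (H : CubLat) (p : ℕ) : Prop := ∀ d, InC H d → Obstructs p d

/-- There is a vector with the properties of the class of a plane. -/
def HasPlane (H : CubLat) : Prop := ∃ P, H.IsHodge P ∧ H.ip P H.h = 1 ∧ H.ip P P = 3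

/-- The Hodge isometry as a linear map. -/
def lin {H : CubLat} (g : HodgeIsometry H) : (Fin 23 → ℤ) →ₗ[ℤ] (Fin 23 → ℤ) :=
  (AddMonoidHom.mk' g.f g.add).toIntLinearMap

theorem lin_pow {H : CubLat} (g : HodgeIsometry H) (n : ℕ) (v : Fin 23 → ℤ) :
    ((lin g) ^ n) v = g.f^[n] v := by
  induction n generalizing v with
  | zero => rfl
  | succ n ih =>
    rw [pow_succ, Module.End.mul_apply, ih, Function.iterate_succ_apply]
    rfl

theorem lin_pow_eq_one {H : CubLat} (g : HodgeIsometry H) (n : ℕ) :
    (lin g) ^ n = 1 ↔ g.PowTrivial n := by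
  constructor
  · intro h v
    rw [← lin_pow, h, Module.End.one_apply]
  · intro h
    refine LinearMap.ext fun v => ?_
    rw [lin_pow, Module.End.one_apply]
    exact h v

theorem iso {H : CubLat} (g : HodgeIsometry H) : Pool.Agent.H834.AUT.Iso H (lin g) :=
  ⟨g.isometry, g.fixes_h⟩

theorem hasK3_iff {H : CubLat} (hH : H.IsCubic) :
    H.HasK3 ↔ ∀ p, BadPrime p → ¬ ObstructsAll H p := by
  rw [Pool.Agent.H834.AUT.hasK3_iff hH]
  refine forall_congr' fun p => ?_
  refine imp_congr Iff.rfl ?_
  unfold ObstructsAll
  push Not
  exact Iff.rfl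

/-- **Automorphisms of cubic fourfolds and associated K3 surfaces.** -/
theorem result {H : CubLat} (hH : H.IsCubic) :
    (¬ H.HasK3 → ∃ p, BadPrime p ∧ ObstructsAll H p) ∧
    (∀ p, BadPrime p → ObstructsAll H p →
      (∀ g : HodgeIsometry H, g.FiniteOrder →
        (∃ k : ℕ, g.PowTrivial (p ^ k)) ∨ ∃ m : ℕ, g.ExceptionalPower m) ∧
      ((∃ g : HodgeIsometry H, g.FiniteOrder ∧ g.c = 1 ∧ ¬ g.PowTrivial 1) → p = 2) ∧
      (HasPlane H → p = 2)) ∧
    (∀ (g : HodgeIsometry H) (n : ℕ), g.PowTrivial n → g.c ≠ 1 → g.FixesMore 1 →
      (H.HasK3 ↔ ∀ p, BadPrime p → p ∣ n → ¬ ObstructsAll H p)) := by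
  have hper : ∀ g : HodgeIsometry H, ∀ v, Pool.Agent.H834.AUT.per H (lin g v) =
      g.c * Pool.Agent.H834.AUT.per H v := fun g v => g.period v
  have hperm : ∀ (g : HodgeIsometry H) (m : ℕ), ∀ v, Pool.Agent.H834.AUT.per H (((lin g) ^ m) v) =
      g.c ^ m * Pool.Agent.H834.AUT.per H v := fun g m v =>
    Pool.Agent.H834.AUT.per_iter (hper g) m v
  refine ⟨fun hno => ?_, fun p hp hob => ⟨fun g ⟨n, hn0, hn⟩ => ?_, ?_, ?_⟩,
    fun g n hn hc hv => ?_⟩
  · rw [hasK3_iff hH] at hno
    push Not at hno
    exact hno
  · by_cases hk : ∀ k : ℕ, (lin g) ^ p ^ k ≠ 1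
    · right
      obtain ⟨m, q, hq, hqp, h2, h3⟩ := Pool.Agent.H834.AUT.prime_power hn0
        ((lin_pow_eq_one g n).2 hn) hk
      obtain ⟨rfl, hc, hI⟩ := Pool.Agent.H834.AUT.exceptional hH
        (Pool.Agent.H834.AUT.iso_pow (iso g) m) (hperm g m) hp hob hq hqp h2 h3
      refine ⟨m, ?_, hc, ?_⟩
      · rw [← pow_mul, mul_comm] at h2
        exact (lin_pow_eq_one g _).1 h2
      · rintro ⟨v, hv, hne⟩
        obtain ⟨k, hk⟩ := hI v (by rw [lin_pow]; exact hv)
        exact hne k hk
    · push Not at hk
      obtain ⟨k, hk⟩ := hk
      exact Or.inl ⟨k, (lin_pow_eq_one g _).1 hk⟩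
  · rintro ⟨g, ⟨n, hn0, hn⟩, hc, h1⟩
    by_contra hp2
    obtain ⟨d, hd, h⟩ := Pool.Agent.H834.AUT.symp_unobs hH (iso g)
      (fun v => by rw [hper, hc, one_mul]) hn0 ((lin_pow_eq_one g n).2 hn)
      (fun h => h1 ((lin_pow_eq_one g 1).1 (by rw [pow_one, h]))) p hp hp2
    exact h (hob d hd)
  · rintro ⟨P, h1, h2, h3⟩
    by_contra hp2
    obtain ⟨d, hd, h⟩ := Pool.Agent.H834.AUT.IsPlane.unobs hH ⟨h1, h2, h3⟩ p hp hp2
    exact h (hob d hd)
  · rw [hasK3_iff hH]
    refine ⟨fun h p hp _ => h p hp, fun h p hp => ?_⟩
    by_cases hpn : p ∣ n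
    · exact h p hp hpn
    · obtain ⟨v, hv, hne⟩ := hv
      obtain ⟨d, hd, h⟩ := Pool.Agent.H834.AUT.nonsymp_unobs hH (iso g)
        ((lin_pow_eq_one g n).2 hn) (fun v => Pool.Agent.H834.AUT.hodge_of_nonsymp hc (hper g))
        ⟨v, hv, hne⟩ p hp hpn
      exact fun hob => h (hob d hd)

end Pool.Agent.Results.MP_ffd2c1_ag.AutomorphismsAndK3
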