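import Pool.Agent.H574.CF.Slice5

/-!
# Inside each Hassett divisor

The conjecture says that a smooth cubic fourfold `X` is rational if and only if it has an associated
K3 surface, that is, if and only if it lies in a Hassett divisor `𝒞_d` with `d` admissible. Let
`d = 2 n` be any discriminant for which `𝒞_d` is not empty (`n ≥ 4`, `n` not `2` modulo `3`), admissible
or not. We count the loci `𝒞_M` of codimension one in `𝒞_d`, that is, the loci of the
fourfolds with `M ⊆ A(X)` for the groups `M = A(X)` of rank three which contain `ℤ h + ℤ v` of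
discriminant `d`, and we determine the proportion of those which consist of fourfolds with
associated K3 surface.

To `M` belongs a unique reduced form `A y² + B y z + C z²`, `0 ≤ B ≤ A ≤ C` (one half of the
discriminant on `M / ℤ h`), and it determines `(M, h)` up to isometry. We order the loci by
`C` (or by the discriminant `(4 A C - B²) / 3` of `M`, this is the same up to a constant, since `A = n`
for all but finitely many loci in `𝒞_d`).

**Theorem.** (1) There are asymptotically `tot n · D` loci of codimension one in `𝒞_d` with `C ≤ D`,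
where `tot n = (n + 1) / 3` or `2 (n + 3) / 9`. (2) The proportion of the loci which consist of
fourfolds with associated K3 surface tends to an explicit rational number `prop n`; for example
if `n` is `1` modulo `3` it is `(n ∏ (1 - p⁻²) + ∏ (1 - p⁻¹)) / (n + 1)`, the products over the prime
numbers `p ≡ 2` modulo `3` which divide `n`. (3) `prop n = 1` if and only if `d` is admissible, and
`prop n ≥ 5 / 9` in all cases, with equality only for `d = 12`. So in every Hassett divisor the larger
part of the loci of codimension one consists of fourfolds with associated K3 surface, although the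
general member has none if `d` is not admissible.

(4) The divisor `𝒞_8` of the fourfolds which contain a plane: exactly `7/10` of the loci have
associated K3 surfaces. The locus is known to be rational by the theorem of Hassett (there is a class
`T` with `T.(h - P)` odd) for exactly `2/5` of the loci; so `3/10` of the loci are predicted to be
rational, but are not covered by the construction of Hassett, and for `3/10` of the loci the general
member is predicted to be irrational.

The statements are proved for the saturated subgroups `M` of `L = ⟨1⟩³ ⊕ U² ⊕ E₈²` with `h ∈ M` and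
`(v, v) ≥ 3` for `v ≠ 0` (`IsGood M`; these are the possible lattices `A(X)`) without any hypothesis;
then they are translated with the known theorems on cubic fourfolds (`IsPeriodTheory R`).
-/

set_option autoImplicit false

namespace Pool.Agent.Results.MP_ffd2c1_ag.InsideEachHassettDivisor

open Pool.Agent.H574.CF Pool.Agent.Q63.CF Pool.Agent.Y95.Q Filter Topology

/-- the criterion of Hassett in terms of the proportion -/
theorem prop_one_iff {n : ℕ} (hn : 4 ≤ n) (h3 : n % 3 ≠ 2) :
    Dens.prop n = 1 ↔ Admissible (2 * (n : ℤ)) := by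
  rw [(Dens.prop_lt_one (by omega) h3).2, adm_iff (by
    refine ⟨by omega, ?_⟩
    omega)]
  constructor
  · rintro ⟨h1, h2, h4⟩ p ⟨hp, hp3⟩ hob
    unfold Obstructs at hob
    by_cases h : p = 3
    · rw [if_pos h] at hob
      omega
    · rw [if_neg h] at hob
      have h5 : p % 3 = 2 := hp3.resolve_left h
      have h6 : (p : ℤ) ∣ n := by
        obtain ⟨k, hk⟩ := hob
        exact ⟨k, by linarith⟩
      have h7 : p ∈ Dens.Bad n := (Dens.mem_Bad (by omega)).2 ⟨hp, h5, by exact_mod_cast h6⟩
      rw [h1] at h7
      simp at h7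
  · intro h1
    refine ⟨?_, ?_, ?_⟩
    · by_contra hne
      obtain ⟨p, hp⟩ := Finset.nonempty_iff_ne_empty.2 hne
      obtain ⟨a1, a2, a3⟩ := (Dens.mem_Bad (by omega)).1 hp
      apply h1 p ⟨a1, Or.inr a2⟩
      unfold Obstructs
      rw [if_neg (by omega)]
      exact mul_dvd_mul_left 2 (by exact_mod_cast a3)
    · intro h2
      apply h1 3 ⟨Nat.prime_three, Or.inl rfl⟩
      unfold Obstructs
      rw [if_pos rfl]
      omega
    · intro h2
      apply h1 3 ⟨Nat.prime_three, Or.inl rfl⟩
      unfold Obstructs
      rw [if_pos rfl]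
      omega

/-- **The loci of codimension one in each Hassett divisor.** -/
theorem result :
    -- the loci of codimension one in `𝒞_d`, `d = 2 n`
    (∀ n : ℕ, 4 ≤ n → n % 3 ≠ 2 →
      (∀ M t, Good3 M → HasForm M t → n < t.2.2 → (In M (2 * n) ↔ t.1 = n)) ∧
      Tendsto (fun D : ℕ => ((TypesIn (2 * n) (fun _ => True) D).ncard : ℝ) / D) atTop
        (𝓝 (Dens.tot n)) ∧
      Tendsto (fun D : ℕ => ((TypesIn (2 * n) K3 D).ncard : ℝ) /
        (TypesIn (2 * n) (fun _ => True) D).ncard) atTop (𝓝 (Dens.prop n)) ∧
      (Dens.prop n = 1 ↔ Admissible (2 * n)) ∧ (n ≠ 6 → 5 / 9 < Dens.prop n)) ∧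
    Dens.prop 6 = 5 / 9 ∧
    -- the fourfolds which contain a plane
    Dens.prop 4 = 7 / 10 ∧
    Tendsto (fun D : ℕ => ((TypesIn 8 OddClass D).ncard : ℝ) /
      (TypesIn 8 (fun _ => True) D).ncard) atTop (𝓝 (2 / 5)) ∧
    -- cubic fourfolds
    ∀ R : CubicFourfold → Submodule ℤ L → Prop, IsPeriodTheory R →
      ∀ M t, Good3 M → HasForm M t →
        (Locus R M).Nonempty ∧ (∀ d, Locus R M ⊆ Div R d ↔ In M d) ∧
        (K3 M → ∀ X ∈ Locus R M, HasK3 R X) ∧ (¬ K3 M → ∀ X, R X M → ¬ HasK3 R X) ∧
        (OddClass M → ∀ X ∈ Locus R M, X.IsRational) ∧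
        ∀ M' t', Good3 M' → HasForm M' t' →
          (t = t' ↔ Isometric M M') ∧ (Locus R M ⊆ Locus R M' → t = t') := by
  refine ⟨fun n hn h3 => ⟨fun M t hM hf hC => in_iff_first hM hf (by omega) hC, lim_all hn h3,
    lim_prop hn h3, prop_one_iff hn h3, Dens.prop_ge hn h3⟩, Dens.prop_six, Dens.prop_four,
    lim_odd, fun R hR M t hM hf => ⟨?_, fun d => ⟨fun h1 => ?_, fun h1 => ?_⟩, ?_, ?_, ?_,
      fun M' t' hM' hf' => ⟨?_, ?_⟩⟩⟩
  · obtain ⟨X, hX⟩ := hR.exist M hM.1
    exact ⟨X, M, hX, le_rfl⟩
  · obtain ⟨X, hX⟩ := hR.exist M hM.1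
    exact (div_iff hR.toIsHodgeTheory hX).1 (h1 ⟨M, hX, le_rfl⟩)
  · rintro X ⟨A, hX, hle⟩
    exact (div_iff hR.toIsHodgeTheory hX).2 (h1.mono hle)
  · rintro ⟨d, hd, hd2⟩ X ⟨A, hX, hle⟩
    exact ⟨d, hd, (div_iff hR.toIsHodgeTheory hX).2 (hd2.mono hle)⟩
  · rintro h1 X hX ⟨d, hd, hd2⟩
    exact h1 ⟨d, hd, (div_iff hR.toIsHodgeTheory hX).1 hd2⟩
  · rintro ⟨P, hP, hP1, hP2, T, hT, hodd⟩ X ⟨A, hX, hle⟩
    exact hR.hassett X A hX P (hle hP) hP1 hP2 T (hle hT) hodd
  · constructor
    · rintro rfl
      obtain ⟨g, hg, hh⟩ := isom_of_form hf hf' (one_le_of_occ (occ_of hM.1 hM.2 hf))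
      exact isometric_of hM.1.mem g hg hh
    · intro hi
      obtain ⟨g, hg, hh⟩ := exists_of_isometric hi
      have h1 := form_of_isom hM.1.mem g hg hh hf
      exact form_unique h1 hf' (one_le_of_occ (occ_of hM'.1 hM'.2 h1))
        (one_le_of_occ (occ_of hM'.1 hM'.2 hf'))
  · intro hle
    exact form_of_locus hR.toIsHodgeTheory hM.1 hM.2 hf hM'.1 hM'.2 hf' hle

end Pool.Agent.Results.MP_ffd2c1_ag.InsideEachHassettDivisor
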