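import Mathlib
import Pool.Agent.H900.PW.CD
import Pool.Agent.H900.PW.Rt

/-!
# Families of cubic fourfolds which contain a plane (and with other prescribed sections)

A very general cubic fourfold `X` which contains a plane has no associated K3 surface (it is a very
general member of the divisor `𝒞_8`), so the conjecture of Hassett predicts that it is irrational.
We prove that there is no stable rational parametrization of such fourfolds which depends rationally
on parameters (or rationally up to a choice of odd degree): this already fails for very
general nets of cubic fourfolds containing a given plane. So let `F_0, F_1, F_2` be very general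
cubic forms in six variables which vanish on a plane, and let `X_η` be the cubic fourfold
`F_0 + t_1 F_1 + t_2 F_2 = 0` over the field `K = ℂ(t_1, t_2)`. Then `X_η` contains a
plane over `K` and is unirational of degree two over `K`, but it is not stably
rational over `K`. Here one can prescribe much more than a plane: for instance the
intersections of the fourfolds with a linear subspace `ℙ^3` of codimension two, a net of
cubic surfaces, which may contain a plane, two planes, three planes, or may be constant, or zero
(so that the fourfolds are singular and contain `ℙ^3`). It is not even necessary that these cubic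
surfaces are general in any sense.

**The theorem.** Let `W` be a finite set of monomials `t^κ` in `t_1, …, t_s` which contains `1`
and at least one of the `t_i`, let `N` be the number of the squarefree members of `W`, and let
`1 ≤ n ≤ 2 N - 1` (for instance `n = 4`, `s = 2`, and `W` the set of all monomials of degree at most
`d`, for some `d ≥ 1`; for `d = 1` these are the nets). For each `κ ∈ W` let `S_κ` be an
**arbitrary** cubic form in `n` variables. Let `F_κ` be very general among the cubic forms in
`x_0, …, x_{n+1}` whose restriction to the linear subspace `x_0 = x_{n+1} = 0` is `S_κ`: the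
coefficients of `F_κ`, `κ ∈ W`, are not a zero of one of countably many nonzero polynomials with
complex coefficients, which only depend on the forms `S_κ`. Let `X_η` be the hypersurface
`∑_{κ ∈ W} t^κ F_κ = 0` over `K = ℂ(t_1, …, t_s)`, the generic member of a family of cubic
hypersurfaces of dimension `n` with prescribed sections `∑_{κ ∈ W} t^κ S_κ = 0` of codimension
two. Then we have:

(A) Let `L / K` be an algebraic field extension. There is no dominant rational map of odd degree
over `K` from the affine space of dimension `n + m` over `L` to `X_η × 𝔸^m`. For every `L` of odd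
degree over `K` (for instance `L = K`) this says that `X_η` is not stably rational over `L`.

(A') More generally, let `r` be a rational map over `L` from an affine space to `X_η`, and let `M` be
a field of odd degree over the function field of `X_η × 𝔸^m` which contains `L`. Then the generic
point of `X_η` is not the value `r(v)` at a point `v` of the affine space over `M`. For every `L` of
odd degree over `K` (for instance `L = K`) this says that `X_η × 𝔸^m` is not retract rational over `L`.

(B) Let `M` be a field which is a finite extension of odd degree of the function field of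
`X_η × 𝔸^m`. The generic point of `X_η`, as a point over `M`, is not joined by a chain of rational
curves on `X_η` over `M` to any point whose coordinates are algebraic over `K`. (If `n = 4` and
`X_η` contains a plane, there are many such points, which also lie on lines of `X_η` over `K`.)

For `n = 4` the fourfold `X_η` is smooth if the cubic surface `∑ t^κ S_κ = 0` is
reduced, for instance the union of a plane and a smooth quadric.

**Comparison with the case of very general forms** (`MP_2619d0_ag.CubicFamilies`). There all the
coefficients of the forms `F_κ` have to be independent. Here the section `S_κ` is arbitrary.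
The change of variables `x_0 ↦ c⁻¹ x_0`, `x_{n+1} ↦ c⁻¹ x_{n+1}` transforms `c F_κ` into
`c S_κ + …`, where the coefficients of the other monomials are again independent over the field
generated by the coefficients of the forms `S_κ`. If `c` is the difference of a coefficient of one
of the forms and a rational number, we obtain a family over an algebraically closed field `Ω`
and a transcendental element `c` which specializes for `c = 0` to a family whose
sections are zero, namely
`Φ = x_0 q_0(a) + x_{n+1} (q_1(b) + x_{n+1}² + x_0² + t_1 x_0 x_{n+1}) = 0` (`a`, `b` are the other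
variables). Here `q_0(a) = ∑ t^τ a_τ²` and `q_1(b) = ∑ t^τ b_τ²` are subforms of the Pfister form
`φ = ⟨⟨t_1, …, t_s⟩⟩`, and the coefficient `1` does not occur in `q_1`. One considers
the class of `x_0 x_{n+1}` modulo the values of `φ`. This class is constant along
rational curves on `Φ = 0` (parity of the valuations, norm principle), also if such curves
come from curves on the very general member (Newton polygons). It is trivial for the points
which are algebraic over `K` (Tsen-Lang), and nontrivial for the generic point, since `Φ` is
linear in `t_1`, so that the total space of the special family is rational, and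
`⟨⟨t_1, …, t_s, x_0 x_{n+1}⟩⟩` is anisotropic over its function field and over the extensions of odd
degree (Springer).
-/

set_option autoImplicit false

namespace Pool.Agent.Results.MP_ffd2c1_ag.PrescribedSections

open MvPolynomial Module

noncomputable section

/-- the field `K = ℂ(t_1, …, t_s)` -/
abbrev K (s : ℕ) : Type := FractionRing (MvPolynomial (Fin s) ℂ)

/-- the parameters `t_1, …, t_s` -/
def t (s : ℕ) (j : Fin s) : K s := algebraMap (MvPolynomial (Fin s) ℂ) (K s) (X j)

/-- The equation `∑_κ t^κ F_κ` of the generic member of the family of cubic hypersurfaces which is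
given by the cubic forms `F_κ`. Here `κ` runs through a finite set `W` of exponents, and `t^κ` is
the product of the `t_j ^ κ_j`. -/
def member {r s : ℕ} (W : Finset (Fin s → ℕ)) (F : {κ // κ ∈ W} → MvPolynomial (Fin r) ℂ) :
    MvPolynomial (Fin r) (K s) :=
  ∑ κ : {κ // κ ∈ W}, C (∏ j, t s j ^ κ.1 j) * map (algebraMap ℂ (K s)) (F κ)

/-- The restriction `F(0, x_1, …, x_n, 0)` of the form `F(x_0, x_1, …, x_n, x_{n+1})` to the linear
subspace `x_0 = x_{n+1} = 0` of codimension two. -/
def linearSection {n : ℕ} (F : MvPolynomial (Fin (n + 2)) ℂ) : MvPolynomial (Fin n) ℂ :=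
  aeval (Fin.cons 0 (Fin.snoc (α := fun _ => MvPolynomial (Fin n) ℂ) X 0)) F

/-- The points `u` and `u'` of the projective space over `M` are joined by a rational curve over `M`
on the hypersurface `f = 0`: there are polynomials `C_i` in one variable, of degree at most `D`,
with `f(C) = 0`, such that `u` is the value of `C` at `0` and `u'` is the value at `∞` (the vector
of the coefficients in degree `D`). -/
def Joined {k M : Type} [Field k] [Field M] [Algebra k M] {r : ℕ} (f : MvPolynomial (Fin r) k)
    (u u' : Fin r → M) : Prop :=
  u ≠ 0 ∧ u' ≠ 0 ∧ ∃ (D : ℕ) (C : Fin r → Polynomial M), (∀ i, (C i).natDegree ≤ D) ∧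
    aeval C f = 0 ∧ (∃ a : M, a ≠ 0 ∧ ∀ i, (C i).coeff 0 = a * u i) ∧
    ∃ b : M, b ≠ 0 ∧ ∀ i, (C i).coeff D = b * u' i

/-- the field generated over `k` by the ratios of the coordinates of the point `g` of the projective
space and by the elements `R_l` -/
def pointField (k : Type) {M : Type} [Field k] [Field M] [Algebra k M] {r m : ℕ}
    (g : Fin r → M) (R : Fin m → M) : IntermediateField k M :=
  IntermediateField.adjoin k ({z | ∃ i j, z = g i / g j} ∪ Set.range R)

/-- the field of rational functions in `N` variables over `L` -/
abbrev RatFun (N : ℕ) (L : Type) [Field L] : Type := FractionRing (MvPolynomial (Fin N) L)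

/-- `g` is a point of the hypersurface `f = 0` in the projective space over `M`, and the degree of
`M` over the field generated over `k` by `(g, R)` is odd (`finrank` is `0` if the degree is
infinite) -/
def OddPoint (k : Type) {M : Type} [Field k] [Field M] [Algebra k M] {r m : ℕ}
    (f : MvPolynomial (Fin r) k) (g : Fin r → M) (R : Fin m → M) : Prop :=
  g ≠ 0 ∧ aeval g f = 0 ∧ Odd (finrank (pointField k g R) M)

/-- For every algebraic extension `L` of `k`, every `m` and every rational map `(g, R)` over `k`
from the affine space of dimension `n + m` over `L` to the product of the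
hypersurface `f = 0` in the projective space of dimension `n + 1` and the affine space of
dimension `m`, the degree of `(g, R)` is even or infinite. -/
def NoOddParametrization {k : Type} [Field k] {n : ℕ} (f : MvPolynomial (Fin (n + 2)) k) : Prop :=
  ∀ (L : Type) [Field L] [Algebra k L] [Algebra.IsAlgebraic k L] (m : ℕ)
    (g : Fin (n + 2) → RatFun (n + m) L) (R : Fin m → RatFun (n + m) L), ¬ OddPoint k f g R

/-- There are no algebraic extension `L` of `k`, rational map `r` over `L` from an affine space to
the hypersurface `X = (f = 0)`, field `M` containing `L` and point `v` of the affine space over `M`,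
such that `g = r(v)` is a generic point of `X` and `M` is of odd degree over the field `k(g, R)` of a
generic point `(g, R)` of the product of `X` with an affine space of dimension `m` (the
transcendence degree `n + m` of `M` says that this point is generic). For `L = k`, `m = 0` and
`M = k(g)` this says that `X` is not retract rational: if `r ∘ i` is the identity of `X` for
rational maps `i` from `X` to the affine space and `r` back, then `g = r(v)` for `v = i(g)`. The
polynomials `r_0, …, r_{n+1}` are homogeneous coordinates of the map `r`. -/
def NoOddRetraction {k : Type} [Field k] {n : ℕ} (f : MvPolynomial (Fin (n + 2)) k) : Prop :=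
  ∀ (L : Type) [Field L] [Algebra k L] [Algebra.IsAlgebraic k L] (N : ℕ)
    (r : Fin (n + 2) → MvPolynomial (Fin N) L), aeval r f = 0 →
    ∀ (M : Type) [Field M] [Algebra k M] [Algebra L M] [IsScalarTower k L M] (v : Fin N → M)
      (m : ℕ) (R : Fin m → M), Algebra.trdeg k M = ((n + m : ℕ) : Cardinal) →
      ¬ OddPoint k f (fun i => aeval v (r i)) R

/-- Let `g` be a point of the hypersurface `f = 0` in the projective space of dimension `n + 1`,
with coordinates in an extension `M` of `k` of transcendence degree `n + m`, and let
`R_1, …, R_m ∈ M`. We assume that the degree of `M` over the field generated by `(g, R)`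
is odd (so `(g, R)` is a generic point of the product of the hypersurface and the affine space of
dimension `m`). Then `g` is not joined by a chain of rational curves over `M` on the hypersurface to
any point whose coordinates are algebraic over `k`. -/
def NotConnected {k : Type} [Field k] {n : ℕ} (f : MvPolynomial (Fin (n + 2)) k) : Prop :=
  ∀ (M : Type) [Field M] [Algebra k M] (m : ℕ) (g : Fin (n + 2) → M) (R : Fin m → M),
    Algebra.trdeg k M = ((n + m : ℕ) : Cardinal) → OddPoint k f g R →
    ∀ p : Fin (n + 2) → M, (∀ i, IsAlgebraic k (p i)) → ¬ Relation.ReflTransGen (Joined f) g p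

/-- the exponents of the monomials of degree three in `x_0, …, x_{n+1}` which are divisible by `x_0`
or `x_{n+1}` -/
abbrev Mon (n : ℕ) : Type :=
  {β : Fin (n + 2) →₀ ℕ // β.degree = 3 ∧ (β 0 ≠ 0 ∨ β (Fin.last (n + 1)) ≠ 0)}

/-- The property `P` holds for all families of cubic forms in `x_0, …, x_{n+1}` with the sections
`S_κ`, indexed by the finite set `W`, outside a countable union of hypersurfaces of the affine space
of all these families: there is a countable set `Ps` of nonzero polynomials in the
coefficients of the monomials of the `F_κ` divisible by `x_0` or `x_{n+1}`, such that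
`P F` holds for every family `F` of cubic forms with the sections `S_κ` such that no member of `Ps`
vanishes at the coefficients of `F`. -/
def VeryGeneral {s : ℕ} (W : Finset (Fin s → ℕ)) {n : ℕ}
    (S : {κ // κ ∈ W} → MvPolynomial (Fin n) ℂ)
    (P : ({κ // κ ∈ W} → MvPolynomial (Fin (n + 2)) ℂ) → Prop) : Prop :=
  ∃ Ps : Set (MvPolynomial ({κ // κ ∈ W} × Mon n) ℂ), Ps.Countable ∧ 0 ∉ Ps ∧
    ∀ F : {κ // κ ∈ W} → MvPolynomial (Fin (n + 2)) ℂ, (∀ κ, (F κ).IsHomogeneous 3) →
      (∀ κ, linearSection (F κ) = S κ) →
      (∀ Q ∈ Ps, aeval (fun p : {κ // κ ∈ W} × Mon n => coeff p.2.1 (F p.1)) Q ≠ 0) → P F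

/-- **Very general families of cubics with prescribed sections of codimension two.** Let `W` be a
finite set of monomials in `t_1, …, t_s` which contains `1` and one of the `t_i`, let `N` be the
number of the squarefree members of `W`, and let `1 ≤ n ≤ 2 N - 1`. Let `S_κ` be any forms in `n`
variables. Then the generic member of a very general family `∑_κ t^κ F_κ = 0` of cubic
hypersurfaces of dimension `n` such that `F_κ` restricts to `S_κ` has the properties (A), (A') and
(B). -/
theorem result (s n : ℕ) (W : Finset (Fin s → ℕ)) (h0 : 0 ∈ W) (h1 : ∃ i, Pi.single i 1 ∈ W)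
    (hn : 1 ≤ n) (hW : n + 1 ≤ 2 * (W.filter fun κ => ∀ j, κ j ≤ 1).card)
    (S : {κ // κ ∈ W} → MvPolynomial (Fin n) ℂ) :
    VeryGeneral W S fun F =>
      NoOddParametrization (member W F) ∧ NoOddRetraction (member W F) ∧
        NotConnected (member W F) := by
  classical
  obtain ⟨i0, hi0⟩ := h1
  have hT1 := Pool.Agent.H900.PW.sq_single hi0
  obtain ⟨D, j0, hj0, hj1, hTD⟩ := Pool.Agent.H900.PN.exists_dat
    (Pool.Agent.H900.PW.sq_zero h0) hT1 hn (by rw [Pool.Agent.H900.PW.sq_card]; exact hW)
  let k0 : IntermediateField ℚ ℂ := IntermediateField.adjoin ℚ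
    (Set.range fun p : {κ // κ ∈ W} × (Fin n →₀ ℕ) => coeff p.2 (S p.1))
  have hk0c : Countable k0 :=
    Pool.Agent.H900.PC.countable_adjoin (Set.countable_range _)
  refine ⟨(map (algebraMap k0 ℂ)) '' {P | P ≠ 0}, ?_, ?_, ?_⟩
  · have : Countable (MvPolynomial ({κ // κ ∈ W} × Mon n) k0) :=
      AddMonoidAlgebra.coeff_injective.countable
    exact (Set.to_countable _).image _
  · rintro ⟨P, hP, h⟩
    apply hP
    apply map_injective (algebraMap k0 ℂ) (algebraMap k0 ℂ).injective
    rw [h, map_zero]
  intro F hF hS hP
  let F' : (Fin s → ℕ) → MvPolynomial (Fin (n + 2)) ℂ := fun τ =>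
    if h : τ ∈ W then F ⟨τ, h⟩ else 0
  have hF' : ∀ τ : {κ // κ ∈ W}, F' τ.1 = F τ := fun τ => dif_pos τ.2
  have hfam : member W F = Pool.Agent.H900.PW.famw W F' := by
    unfold member Pool.Agent.H900.PW.famw
    rw [← Finset.sum_coe_sort W]
    refine Finset.sum_congr rfl fun τ _ => ?_
    rw [hF' τ]
    rfl
  have hFh : ∀ τ ∈ W, (F' τ).IsHomogeneous 3 := by
    intro τ hτ
    rw [hF' ⟨τ, hτ⟩]
    exact hF _
  have hk0 : ∀ τ ∈ W, ∀ β : Fin (n + 2) →₀ ℕ, β 0 = 0 → β (Fin.last (n + 1)) = 0 →
      coeff β (F' τ) ∈ k0 := by
    intro τ hτ β h0 hl
    obtain ⟨β', hβ'⟩ := Pool.Agent.H900.PC.coeff_section (F' τ) β h0 hl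
    rw [hβ', hF' ⟨τ, hτ⟩]
    have h2 := hS ⟨τ, hτ⟩
    unfold linearSection at h2
    rw [h2]
    exact IntermediateField.subset_adjoin _ _ ⟨(⟨τ, hτ⟩, β'), rfl⟩
  have hind : AlgebraicIndependent k0
      (fun p : {κ // κ ∈ W} × Pool.Agent.H900.PC.Fm n => coeff p.2.1 (F' p.1.1)) := by
    rw [algebraicIndependent_iff]
    intro P h
    by_contra hne
    refine hP _ ⟨P, hne, rfl⟩ ?_
    rw [aeval_map_algebraMap, ← h]
    congr 2
    funext p
    rw [hF' p.1]
  rw [hfam]
  have hB : ∀ (M : Type) [Field M] [Algebra (K s) M] (m : ℕ) (g : Fin (n + 2) → M)
      (R : Fin m → M) (ι' : Type) (y : ι' → M), AlgebraicIndependent (K s) y →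
      ((n + m : ℕ) : Cardinal) ≤ Cardinal.mk ι' → g ≠ 0 →
      aeval g (Pool.Agent.H900.PW.famw W F') = 0 →
      Odd (finrank (pointField (K s) g R) M) →
      ∀ l : Fin (n + 2) → M, (∀ i, IsAlgebraic (K s) (l i)) →
        ¬ Relation.ReflTransGen (Joined (Pool.Agent.H900.PW.famw W F')) g l := by
    intro M _ _ m g R ι' y hy hc hg0 hg hodd l hl
    exact Pool.Agent.H900.PW.main_secw D hj0 hj1 h0 hT1 hTD hFh k0 hk0 hind g R hg0 hg hy hc hodd
      l hl
  refine ⟨?_, ?_, ?_⟩
  · rintro L _ _ _ m g R ⟨hg0, hg, hodd⟩
    set f := Pool.Agent.H900.PW.famw W F' with hf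
    have hfh : f.IsHomogeneous 3 := Pool.Agent.H900.PW.famw_hom hFh
    have hinf : Infinite L := Infinite.of_injective _ (algebraMap (K s) L).injective
    obtain ⟨l, -, hl⟩ := Pool.Agent.H900.LF.param_joined (N := n + m)
      (hfh.map (algebraMap (K s) L)) g hg0 (by rw [aeval_map_algebraMap, hg])
    have hy := (Pool.Agent.H900.LF.vars_indep L (n + m)).restrictScalars
      (R := K s) (algebraMap (K s) L).injective
    refine hB _ m g R _ _ hy (by rw [Cardinal.mk_fin]) hg0 hg hodd
      (fun i => algebraMap L _ (l i))
      (fun i => (Algebra.IsAlgebraic.isAlgebraic (l i)).algebraMap)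
      (Relation.ReflTransGen.single ?_)
    obtain ⟨h1, h2, Dd, Cc, h3, h4, h5, h6⟩ := hl
    refine ⟨h1, h2, Dd, Cc, h3, ?_, h5, h6⟩
    rw [aeval_map_algebraMap] at h4
    exact h4
  · rintro L _ _ _ N r hr M _ _ _ _ v m R htr ⟨hg0, hg, hodd⟩
    set f := Pool.Agent.H900.PW.famw W F' with hf
    have hfh : f.IsHomogeneous 3 := Pool.Agent.H900.PW.famw_hom hFh
    have hinf : Infinite L := Infinite.of_injective _ (algebraMap (K s) L).injective
    obtain ⟨l, -, hl⟩ := Pool.Agent.H900.PW.retract_joined (M := M)
      (hfh.map (algebraMap (K s) L)) r (by rw [aeval_map_algebraMap, hr]) v hg0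
    obtain ⟨ι, y, hy⟩ := exists_isTranscendenceBasis' (K s) M
    refine hB M m _ R ι y hy.1 (by rw [hy.cardinalMk_eq_trdeg, htr]) hg0 hg hodd
      (fun i => algebraMap L M (l i))
      (fun i => (Algebra.IsAlgebraic.isAlgebraic (l i)).algebraMap)
      (Relation.ReflTransGen.single ?_)
    obtain ⟨h1, h2, Dd, Cc, h3, h4, h5, h6⟩ := hl
    refine ⟨h1, h2, Dd, Cc, h3, ?_, h5, h6⟩
    rw [aeval_map_algebraMap] at h4
    exact h4
  · rintro M _ _ m g R htr ⟨hg0, hg, hodd⟩ l hl
    obtain ⟨ι, y, hy⟩ := exists_isTranscendenceBasis' (K s) M
    refine hB M m g R ι y hy.1 ?_ hg0 hg hodd l hl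
    rw [hy.cardinalMk_eq_trdeg, htr]

end

end Pool.Agent.Results.MP_ffd2c1_ag.PrescribedSections
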